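import Pool.Agent.Zk41.PY.C
import Pool.Agent.K3h89.SZ.LOWP

/-!
# Every shift: progressions among the `m` for which `m³ + k` is almost prime, or prime

For EVERY integer `k` (`|k| ≤ N`) and every window `(Y, Y + H]`, `Y ≤ N`, `H ≥ N ^ ε`, without a zero of `m³ + k`, the set `R`
of the `m` in the window for which `m³ + k` has at most `s` prime factors, all larger than `H ^ δ`, has at least `c₀`
times the expected number of elements; every subset of `R` with a positive proportion of its elements, and every set of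
a positive proportion of the expected number of integers `m` for which `|m³ + k|` is PRIME, contains `l` members in
arithmetic progression with a difference of at most `(log H) ^ B`. Here `s`, `δ`, `c₀` depend on `ε` only.

Proof. `Zk41.PY.pol`: Szemerédi's theorem relative to the integers at which a polynomial `F ∈ ℤ[X]` without fixed prime
divisor has no small prime factors, uniformly in all polynomials of bounded degree with coefficients `≤ H ^ C`, with
differences up to a power of `log H`. The theorem `eng2_all` on sifted sets (`Zk41.LS`, from the starting files) requires that for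
most differences `W j`, `j` up to a power of `log H`, the numbers `F(t)`, `F(t + W j)` have no common prime factor above
`exp (√ log H)` and few below. The large ones divide the resultant of `F(X)` and `F(X + W j)`: it vanishes for boundedly many
`j`, and if it does not vanish its large prime factors are removed from `F` at a small cost; the small ones are treated
on average over `j` (`Zk41.PY.badP`). Lower bound for `R`: the fundamental lemma.
-/

set_option autoImplicit false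

open Finset Polynomial

namespace Pool.Agent.Results.MP_4d57ea_nt.EveryShift

/-- `S` contains a progression `a, a + d, …, a + (l - 1) d` with difference `1 ≤ d ≤ D`. -/
def HasAP (l : ℕ) (D : ℝ) (S : Finset ℕ) : Prop :=
  ∃ a d : ℕ, 1 ≤ d ∧ (d : ℝ) ≤ D ∧ ∀ i < l, a + i * d ∈ S

/-- the number of the classes `r` modulo `p` with `p ∣ r³ + k` -/
def rho (k : ℤ) (p : ℕ) : ℕ := ((range p).filter (fun r : ℕ => (p : ℤ) ∣ (r : ℤ) ^ 3 + k)).card

/-- `E`, the expected number (up to a constant factor) of the `m` in a window of length `H` for which `m³ + k` is prime, or has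
no prime factor below a power of `H`: `H` times the product of `1 - ρ(p) / p` over the primes `p ≤ H` -/
noncomputable def expected (k : ℤ) (H : ℕ) : ℝ :=
  H * ∏ p ∈ (Icc 1 H).filter Nat.Prime, (1 - (rho k p : ℝ) / p)

open Classical in
/-- the `m` in `(Y, Y + H]` for which `|m³ + k|` has at most `s` prime factors (counted with multiplicity), all larger than
`H ^ δ` -/
noncomputable def R (k : ℤ) (s : ℕ) (δ : ℝ) (Y H : ℕ) : Finset ℕ :=
  (Ioc Y (Y + H)).filter (fun m : ℕ => ((m : ℤ) ^ 3 + k).natAbs.primeFactorsList.length ≤ s ∧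
    ∀ p : ℕ, p.Prime → p ∣ ((m : ℤ) ^ 3 + k).natAbs → (H : ℝ) ^ δ < p)

/-- the `m` in `(Y, Y + H]` for which `|m³ + k|` is prime -/
def primePoints (k : ℤ) (Y H : ℕ) : Finset ℕ :=
  (Ioc Y (Y + H)).filter (fun m : ℕ => ((m : ℤ) ^ 3 + k).natAbs.Prime)

open Pool.Agent.Zk41.PY (fn AdmP pol fn_le sysP_poly)
open Pool.Agent.Y677.RSZ (rt V)
open Pool.Agent.TH423.SH (PS)

/-- the polynomial `X³ + k` -/
noncomputable def Pk (k : ℤ) : ℤ[X] := X ^ 3 + C k

lemma Pk_fn (k : ℤ) (t : ℤ) : fn (Pk k) t = t ^ 3 + k := by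
  unfold fn Pk
  simp

lemma Pk_deg (k : ℤ) : (Pk k).natDegree ≤ 3 := by
  unfold Pk
  compute_degree

lemma Pk_coeff (k M : ℤ) (hM : 1 ≤ M) (hk : |k| ≤ M) (i : ℕ) : |(Pk k).coeff i| ≤ M := by
  unfold Pk
  rw [coeff_add, coeff_X_pow, coeff_C]
  by_cases h3 : i = 3
  · subst h3
    simpa using hM
  · rw [if_neg h3]
    by_cases h0 : i = 0
    · subst h0
      simpa using hk
    · rw [if_neg h0]
      simp
      omega

lemma Pk_adm (k : ℤ) : AdmP (Pk k) := by
  intro p hp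
  have e : ∀ x : ℤ, (Pk k).eval x = x ^ 3 + k := fun x => Pk_fn k x
  by_cases h : (p : ℤ) ∣ k
  · refine ⟨1, fun h1 => ?_⟩
    rw [e, one_pow] at h1
    have h2 : (p : ℤ) ∣ 1 := (dvd_add_left h).1 h1
    have h3 : p ∣ 1 := by exact_mod_cast h2
    exact hp.one_lt.ne' (Nat.dvd_one.1 h3)
  · refine ⟨0, fun h1 => h ?_⟩
    rw [e] at h1
    simpa using h1

lemma exp_eq (k : ℤ) (H : ℕ) : expected k H = H * V (fn (Pk k)) 1 H := by
  unfold expected V
  congr 1
  apply prod_congr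
  · unfold PS
    ext q
    simp only [mem_filter, mem_Icc, Nat.dvd_one]
    constructor
    · rintro ⟨h1, h2⟩
      exact ⟨h1, h2, h2.ne_one⟩
    · rintro ⟨h1, h2, -⟩
      exact ⟨h1, h2⟩
  · intro q _
    congr 3
    unfold rho rt
    congr 1
    ext r
    rw [mem_filter, mem_filter, Pk_fn]

/-- few `m` with small values -/
lemma small_card (k : ℤ) (T : ℕ) (s : Finset ℕ) :
    (s.filter (fun m : ℕ => ((m : ℤ) ^ 3 + k).natAbs ≤ T)).card ≤ 2 * T + 1 := by
  have h1 : (s.filter (fun m : ℕ => ((m : ℤ) ^ 3 + k).natAbs ≤ T)).card ≤ (Finset.Icc (-(T : ℤ)) T).card := by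
    apply card_le_card_of_injOn (fun m : ℕ => (m : ℤ) ^ 3 + k)
    · intro m hm
      rw [mem_coe, mem_filter] at hm
      rw [mem_coe, mem_Icc]
      have := hm.2
      show -(T : ℤ) ≤ (m : ℤ) ^ 3 + k ∧ (m : ℤ) ^ 3 + k ≤ T
      omega
    · intro m _ m' _ h
      have h2 : (m : ℤ) ^ 3 = (m' : ℤ) ^ 3 := by
        have h3 : (m : ℤ) ^ 3 + k = (m' : ℤ) ^ 3 + k := h
        linarith
      have h3 : m ^ 3 = m' ^ 3 := by exact_mod_cast h2
      exact Nat.pow_left_injective (by norm_num) h3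
  rw [Int.card_Icc] at h1
  omega

/-- **Theorem.** For every `ε > 0` there are `s` and `δ, c₀ > 0` such that for all `l` and `κ > 0` there are `B` and `N₀` with
the following property. Let `N ≥ N₀`, let `k` be ANY integer with `|k| ≤ N`, let `Y ≤ N` and `H ≥ N ^ ε` be such that
`m³ + k ≠ 0` for `Y < m ≤ Y + H`. Then `E ≥ H / (log H) ^ 7`, the set `R` has at least `c₀ E` elements, every subset of `R` with at
least `κ |R|` elements and every set of at least `κ E` elements `m` of the window with `|m³ + k|` prime contains a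
progression of length `l` with difference at most `(log H) ^ B`. -/
theorem result (ε : ℝ) (hε : 0 < ε) :
    ∃ (s : ℕ) (δ c₀ : ℝ), 0 < δ ∧ 0 < c₀ ∧ ∀ (l : ℕ) (κ : ℝ), 0 < κ → ∃ B N₀ : ℕ, ∀ N : ℕ, N₀ ≤ N →
      ∀ k : ℤ, |k| ≤ N → ∀ Y H : ℕ, Y ≤ N → (N : ℝ) ^ ε ≤ H → (∀ m : ℕ, Y < m → m ≤ Y + H → (m : ℤ) ^ 3 + k ≠ 0) →
        H / Real.log H ^ 7 ≤ expected k H ∧
        c₀ * expected k H ≤ (R k s δ Y H).card ∧
        (∀ S ⊆ R k s δ Y H, κ * (R k s δ Y H).card ≤ S.card → HasAP l (Real.log H ^ B) S) ∧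
        ∀ S ⊆ primePoints k Y H, κ * expected k H ≤ S.card → HasAP l (Real.log H ^ B) S := by
  classical
  obtain ⟨δ, c₀, hδ, hc₀, H₀, hlow⟩ := Pool.Agent.K3h89.SZ.lowP Pool.Agent.K3h89.SZ.c1P 3
  obtain ⟨c₁, hc₁, H₁, hV⟩ := Pool.Agent.Zk41.LS.V_low1 3
  obtain ⟨C₀, hC₀⟩ : ∃ C₀ : ℕ, C₀ = ⌈1 / ε⌉₊ + 1 := ⟨_, rfl⟩
  obtain ⟨G, hG⟩ : ∃ G : ℕ, G = C₀ + (C₀ + 2) * 3 + 1 := ⟨_, rfl⟩
  refine ⟨⌊(G : ℝ) / δ⌋₊, δ, c₀, hδ, hc₀, fun l κ hκ => ?_⟩
  obtain ⟨B₁, H₂, hpol⟩ := pol 3 l C₀ δ (κ * c₀) hδ (by positivity)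
  obtain ⟨B₂, H₃, hpol2⟩ := pol 3 l C₀ (1 / 2) (κ / 2) (by norm_num) (by positivity)
  have hcast : Filter.Tendsto (fun H : ℕ => (H : ℝ)) Filter.atTop Filter.atTop := tendsto_natCast_atTop_atTop
  have hlog : Filter.Tendsto (fun H : ℕ => Real.log (H : ℝ)) Filter.atTop Filter.atTop :=
    Real.tendsto_log_atTop.comp hcast
  obtain ⟨H₄, hH₄⟩ := Filter.eventually_atTop.1 (hlog.eventually_ge_atTop (max 1 (1 / c₁)))
  -- small values: `2 √H + 1 ≤ κ / 2 * H / (log H) ^ 7`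
  obtain ⟨H₅, hH₅⟩ : ∃ H₅ : ℕ, ∀ H : ℕ, H₅ ≤ H → 6 / κ * Real.log H ^ 7 ≤ (H : ℝ) ^ (1 / 2 : ℝ) := by
    have h1 : (fun x : ℝ => Real.log x ^ ((7 : ℕ) : ℝ)) =o[Filter.atTop] fun x : ℝ => x ^ (1 / 2 : ℝ) :=
      isLittleO_log_rpow_rpow_atTop _ (by norm_num)
    have h2 := (h1.const_mul_left (6 / κ)).def (c := 1) one_pos
    have h3 := hcast.eventually (h2.and (Filter.eventually_ge_atTop (1 : ℝ)))
    obtain ⟨H₅, h5⟩ := Filter.eventually_atTop.1 h3
    refine ⟨H₅, fun H hH => ?_⟩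
    obtain ⟨h6, h7⟩ := h5 H hH
    rw [one_mul, Real.norm_of_nonneg (Real.rpow_nonneg (by linarith) _), Real.rpow_natCast] at h6
    exact (le_abs_self _).trans h6
  obtain ⟨M, hM⟩ : ∃ M : ℕ, M = H₀ + H₁ + H₂ + H₃ + H₄ + H₅ + 5 := ⟨_, rfl⟩
  obtain ⟨n₁, hn₁⟩ : ∃ n₁ : ℕ, ∀ n : ℕ, n₁ ≤ n → (M : ℝ) ≤ (n : ℝ) ^ ε := by
    have h1 := (tendsto_rpow_atTop hε).comp (tendsto_natCast_atTop_atTop (R := ℝ))
    exact Filter.eventually_atTop.1 (h1.eventually_ge_atTop (M : ℝ))
  refine ⟨B₁ + B₂, n₁ + 2, fun N hN k hk Y H hY hH hne => ?_⟩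
  have hHM : M ≤ H := by
    have h1 := (hn₁ N (by omega)).trans hH
    exact_mod_cast h1
  have hH0 : (0 : ℝ) < H := by exact_mod_cast (show 0 < H by omega)
  have hH1 : (1 : ℝ) ≤ H := by exact_mod_cast (show 1 ≤ H by omega)
  have hlog1 : 1 ≤ Real.log H := (le_max_left _ _).trans (hH₄ H (by omega))
  have hlogc : 1 / c₁ ≤ Real.log H := (le_max_right _ _).trans (hH₄ H (by omega))
  have hA := Pk_adm k
  have hN2 : (2 : ℝ) ≤ N := by exact_mod_cast (show 2 ≤ N by omega)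
  have hNC : (N : ℝ) ≤ (H : ℝ) ^ C₀ := by
    have h1 : 1 / ε ≤ C₀ := by
      rw [hC₀]
      push_cast
      linarith [Nat.le_ceil (1 / ε)]
    calc (N : ℝ) = ((N : ℝ) ^ ε) ^ (1 / ε) := by
          rw [← Real.rpow_mul (by positivity), mul_one_div_cancel hε.ne', Real.rpow_one]
      _ ≤ (H : ℝ) ^ (1 / ε) := Real.rpow_le_rpow (by positivity) hH (by positivity)
      _ ≤ (H : ℝ) ^ (C₀ : ℝ) := Real.rpow_le_rpow_of_exponent_le hH1 h1
      _ = (H : ℝ) ^ C₀ := Real.rpow_natCast _ _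
  have hNC' : (N : ℤ) ≤ (H : ℤ) ^ C₀ := by exact_mod_cast hNC
  have hH1' : (1 : ℤ) ≤ (H : ℤ) ^ C₀ := one_le_pow₀ (by exact_mod_cast (show 1 ≤ H by omega))
  have hcoef := Pk_coeff k ((H : ℤ) ^ C₀) hH1' (hk.trans hNC')
  have hYC : Y ≤ H ^ C₀ := by
    have : (Y : ℤ) ≤ ((H ^ C₀ : ℕ) : ℤ) := by
      push_cast
      exact le_trans (by exact_mod_cast hY) hNC'
    exact_mod_cast this
  have hne' : ∀ n ∈ Ioc Y (Y + H), fn (Pk k) (n : ℤ) ≠ 0 := by
    intro n hn
    rw [mem_Ioc] at hn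
    rw [Pk_fn]
    exact hne n hn.1 hn.2
  rw [exp_eq]
  have hVl : (H : ℝ) / Real.log H ^ 7 ≤ H * V (fn (Pk k)) 1 H := by
    have h1 := hV (fn (Pk k)) H (sysP_poly 3 _ hA (Pk_deg k)) (by omega)
    rw [div_eq_mul_inv]
    apply mul_le_mul_of_nonneg_left _ hH0.le
    refine le_trans ?_ h1
    rw [inv_eq_one_div, div_le_div_iff₀ (by positivity) (by positivity), one_mul]
    rw [div_le_iff₀ hc₁] at hlogc
    calc Real.log H ^ (2 * 3) = Real.log H ^ 6 * 1 := by ring
      _ ≤ Real.log H ^ 6 * (Real.log H * c₁) := mul_le_mul_of_nonneg_left hlogc (by positivity)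
      _ = c₁ * Real.log H ^ 7 := by ring
  have hlowc : c₀ * (H * V (fn (Pk k)) 1 H) ≤ (R k ⌊(G : ℝ) / δ⌋₊ δ Y H).card := by
    obtain ⟨T, hTs, hTr, hTc⟩ := hlow (fn (Pk k)) Y H (sysP_poly 3 _ hA (Pk_deg k)) (by omega)
    refine hTc.trans ?_
    have hsub : T ⊆ R k ⌊(G : ℝ) / δ⌋₊ δ Y H := by
      intro m hm
      have hmI := hTs hm
      have hmI' := mem_Ioc.1 hmI
      have hr : ∀ q : ℕ, q.Prime → q ∣ ((m : ℤ) ^ 3 + k).natAbs → (H : ℝ) ^ δ < q := by
        intro q hq hqd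
        by_contra hcon
        push Not at hcon
        apply hTr m hm q hq hcon
        rw [Pk_fn]
        exact Int.natCast_dvd.2 hqd
      unfold R
      rw [mem_filter]
      refine ⟨hmI, ?_, hr⟩
      apply Nat.le_floor
      refine Pool.Agent.Zk41.LS.omega_le (Int.natAbs_ne_zero.2 (hne m hmI'.1 hmI'.2)) (show 2 ≤ H by omega) hδ G ?_ hr
      have h1 := fn_le 3 C₀ H Y (by omega) (Pk k) (Pk_deg k) hcoef hYC m hmI'.2
      rw [Pk_fn, ← hG] at h1
      have h4 : ((((m : ℤ) ^ 3 + k).natAbs : ℕ) : ℤ) ≤ ((H ^ G : ℕ) : ℤ) := by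
        rw [Int.natCast_natAbs]
        push_cast
        exact h1
      exact_mod_cast h4
    exact_mod_cast card_le_card hsub
  refine ⟨hVl, hlowc, ?_, ?_⟩
  · intro S hS hSc
    obtain ⟨a, d, hd1, hd2, hAP⟩ := hpol H (by omega) (Pk k) Y hA (Pk_deg k) hcoef hYC hne' S
      (hS.trans (filter_subset _ _))
      (by
        intro m hm p hp hpH hpd
        have h1 := hS hm
        unfold R at h1
        rw [mem_filter] at h1
        rw [Pk_fn] at hpd
        have h2 := h1.2.2 p hp (Int.natCast_dvd.1 hpd)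
        linarith)
      (by
        calc κ * c₀ * (H * V (fn (Pk k)) 1 H) = κ * (c₀ * (H * V (fn (Pk k)) 1 H)) := by ring
          _ ≤ κ * (R k ⌊(G : ℝ) / δ⌋₊ δ Y H).card := mul_le_mul_of_nonneg_left hlowc hκ.le
          _ ≤ S.card := hSc)
    refine ⟨a, d, hd1, hd2.trans ?_, hAP⟩
    exact pow_le_pow_right₀ hlog1 (by omega)
  · intro S hS hSc
    obtain ⟨T, hT⟩ : ∃ T : ℕ, T = ⌊(H : ℝ) ^ (1 / 2 : ℝ)⌋₊ := ⟨_, rfl⟩
    have hT1 : (T : ℝ) ≤ (H : ℝ) ^ (1 / 2 : ℝ) := by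
      rw [hT]
      exact Nat.floor_le (by positivity)
    obtain ⟨S', hS'⟩ : ∃ S' : Finset ℕ, S' = S.filter (fun m : ℕ => ¬ ((m : ℤ) ^ 3 + k).natAbs ≤ T) := ⟨_, rfl⟩
    have hsc : (S.card : ℝ) ≤ S'.card + (2 * T + 1) := by
      have h1 := small_card k T S
      have h2 : S.card = (S.filter (fun m : ℕ => ((m : ℤ) ^ 3 + k).natAbs ≤ T)).card + S'.card := by
        rw [hS']
        exact (card_filter_add_card_filter_not _).symm
      rw [h2]
      push_cast
      have h3 : ((S.filter (fun m : ℕ => ((m : ℤ) ^ 3 + k).natAbs ≤ T)).card : ℝ) ≤ 2 * T + 1 := by exact_mod_cast h1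
      linarith
    have hsm : (2 * (T : ℝ) + 1) ≤ κ / 2 * (H * V (fn (Pk k)) 1 H) := by
      have h1 := hH₅ H (by omega)
      have h2 : (1 : ℝ) ≤ (H : ℝ) ^ (1 / 2 : ℝ) := Real.one_le_rpow hH1 (by norm_num)
      have h3 : (H : ℝ) ^ (1 / 2 : ℝ) * (H : ℝ) ^ (1 / 2 : ℝ) = H := by
        rw [← Real.rpow_add hH0]
        norm_num
      have h4 : 3 * (H : ℝ) ^ (1 / 2 : ℝ) ≤ κ / 2 * (H / Real.log H ^ 7) := by
        rw [mul_div_assoc', le_div_iff₀ (by positivity)]
        have h5 : 6 * Real.log H ^ 7 ≤ κ * (H : ℝ) ^ (1 / 2 : ℝ) := by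
          rw [div_mul_eq_mul_div, div_le_iff₀ hκ] at h1
          linarith
        nlinarith
      have h6 := mul_le_mul_of_nonneg_left hVl (show (0 : ℝ) ≤ κ / 2 by positivity)
      linarith
    obtain ⟨a, d, hd1, hd2, hAP⟩ := hpol2 H (by omega) (Pk k) Y hA (Pk_deg k) hcoef hYC hne' S'
      (by
        rw [hS']
        exact ((filter_subset _ _).trans hS).trans (filter_subset _ _))
      (by
        intro m hm p hp hpH hpd
        rw [hS', mem_filter] at hm
        have h1 := hS hm.1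
        unfold primePoints at h1
        rw [mem_filter] at h1
        rw [Pk_fn] at hpd
        have h2 := (Nat.prime_dvd_prime_iff_eq hp h1.2).1 (Int.natCast_dvd.1 hpd)
        apply hm.2
        rw [← h2, hT]
        exact Nat.le_floor hpH)
      (by linarith)
    refine ⟨a, d, hd1, hd2.trans ?_, fun i hi => ?_⟩
    · exact pow_le_pow_right₀ hlog1 (by omega)
    · have h1 := hAP i hi
      rw [hS'] at h1
      exact (mem_filter.1 h1).1

end Pool.Agent.Results.MP_4d57ea_nt.EveryShift
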